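import Pool.Agent.H49.KT.Targets

/-!
kt_modules, row BODY (MP_5e53ef_lc): one round of the enumeration loop.
-/

namespace Pool.Agent.H43.KT

open Turing Function
open Pool.Agent.H49.KT

private theorem conv' {U : BM} {c : CC U} {s : SS U} {v' v'' : MM U} {u' u'' : UU U}
    {z' z'' : Nm → List Bool} {T T' : ℕ} (h : Spec c s (mkS v' u' z') T) (hv : v' = v'')
    (hu : u' = u'') (hz : z' = z'')
    (hT : T ≤ T') : Spec c s (mkS v'' u'' z'') T' := by
  subst hv hu hz
  exact h.mono hT

private theorem htIter {U : BM} {B : ℕ} (h : ∀ (c : CF U) (k : U.tm.K),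
    ((fs U c).stk k).length ≤ (c.stk k).length + B ∧
    (c.stk k).length ≤ ((fs U c).stk k).length + B) (T : ℕ) : ∀ (c : CF U) (k : U.tm.K),
    (((fs U)^[T] c).stk k).length ≤ (c.stk k).length + B * T := by
  induction T with
  | zero => intro c k; simp
  | succ T ih =>
    intro c k
    rw [iterate_succ_apply]
    have h1 := ih (fs U c) k
    have h2 := (h c k).1
    rw [Nat.mul_succ]
    omega

private theorem hsLe {U : BM} (u : UU U) (D : ℕ) (h : ∀ k, (u k).length ≤ D) :
    hs U u ≤ (haveI := U.tm.kFin; Fintype.card U.tm.K) * D := by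
  unfold hs
  letI : Fintype U.tm.K := U.tm.kFin
  refine (Finset.sum_le_card_nsmul Finset.univ _ D (fun k _ => h k)).trans ?_
  rw [Finset.card_univ, smul_eq_mul]

private theorem arith (t m D p R C K H : ℕ) :
    1 + (7 * t + 8 * m + 7 * D + 10 + (5 * D + 2 + (1 + (R * t + 1 + (6 * p + 10 +
      (2 * (K * (D + H * t)) + C + (7 * D + 10))))))) ≤
    (100 + R + C + 2 * K + 2 * K * H) * (t + m + D + p + 1) := by
  have e : (100 + R + C + 2 * K + 2 * K * H) * (t + m + D + p + 1) =
      100 * (t + m + D + p + 1) + R * (t + m + D + p + 1) + C * (t + m + D + p + 1) +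
      2 * K * (t + m + D + p + 1) + 2 * K * H * (t + m + D + p + 1) := by ring
  rw [e]
  have h1 : R * t ≤ R * (t + m + D + p + 1) := Nat.mul_le_mul_left _ (by omega)
  have h2 : C ≤ C * (t + m + D + p + 1) := by
    calc C = C * 1 := (mul_one C).symm
      _ ≤ _ := Nat.mul_le_mul_left _ (by omega)
  have h3 : 2 * K * D ≤ 2 * K * (t + m + D + p + 1) := Nat.mul_le_mul_left _ (by omega)
  have h4 : 2 * K * H * t ≤ 2 * K * H * (t + m + D + p + 1) := Nat.mul_le_mul_left _ (by omega)
  have h5 : 2 * (K * (D + H * t)) = 2 * K * D + 2 * K * H * t := by ring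
  rw [h5]
  omega

theorem pf_BODY : T_CLK → T_LD → T_STEP → T_HT → T_RC → T_CLU → T_CMP → T_INC → T_BODY := by
  intro hCLK hLD _ hHT hRC hCLU hCMP hINC U
  obtain ⟨H, hH⟩ := hHT U
  obtain ⟨R, hR⟩ := hRC U
  obtain ⟨C, hC⟩ := hCLU U
  obtain ⟨K, hK⟩ : ∃ K, K = (haveI := U.tm.kFin; Fintype.card U.tm.K) := ⟨_, rfl⟩
  refine ⟨100 + R + C + 2 * K + 2 * K * H, ?_⟩
  rintro v z m i P ⟨hm, hp, hm', hclk, hclk', hd', he, hq⟩ hd
  obtain ⟨D, hD⟩ : ∃ D, ds i = D := ⟨_, rfl⟩
  obtain ⟨t, ht⟩ : ∃ t, 2 ^ (m - D.length) = t := ⟨_, rfl⟩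
  rw [hD, ht]
  have hdD : z .d = D := hd.trans hD
  -- 1
  have s1 := sp_pushc v (E₀ U) z .all' true
  -- 2
  obtain ⟨v2, hR2, s2⟩ := hCLK U v (E₀ U) (update z .all' (true :: z .all')) m
    (by simp [update, hm]) (by simp [update, hm']) (by simp [update, hclk])
    (by simp [update, hclk']) (by simp [update, hd']) (by simp [update, he])
  have hzd : (update z .all' (true :: z .all')) .d = D := by simp [update, hdD]
  rw [hzd, ht] at s2
  -- 3
  have s3 := hLD U v2 (E₀ U) (update (update z .all' (true :: z .all')) .clk (un t))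
    (by simp [update, hd'])
  have hzd3 : (update (update z .all' (true :: z .all')) .clk (un t)) .d = D := by
    simp [update, hdD]
  rw [hzd3] at s3
  have hE : (D.reverse.map U.inputAlphabet.symm ++ E₀ U U.tm.k₀) =
      D.reverse.map U.inputAlphabet.symm := List.append_nil _
  rw [hE] at s3
  -- 4
  have s4 := sp_load (v2.sa false) (update (E₀ U) U.tm.k₀ (D.reverse.map U.inputAlphabet.symm))
    (update (update z .all' (true :: z .all')) .clk (un t))
    (fun v => v.slu (some U.tm.main) U.tm.initialState)
  -- 5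
  have s5 := hR ((v2.sa false).slu (some U.tm.main) U.tm.initialState)
    (update (E₀ U) U.tm.k₀ (D.reverse.map U.inputAlphabet.symm))
    (update (update z .all' (true :: z .all')) .clk (un t)) t (by simp [update])
  have e5 : (fs U)^[t] ⟨((v2.sa false).slu (some U.tm.main) U.tm.initialState).l,
      ((v2.sa false).slu (some U.tm.main) U.tm.initialState).u,
      (update (E₀ U) U.tm.k₀ (D.reverse.map U.inputAlphabet.symm))⟩ = at' U t D.reverse := rfl
  rw [e5] at s5
  have z5 : update (update (update z .all' (true :: z .all')) .clk (un t)) .clk [] =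
      update z .all' (true :: z .all') := by
    funext k
    cases k <;> simp [update, hclk]
  rw [z5] at s5
  -- 6
  obtain ⟨v6, hR6, s6⟩ := hCMP U
    (((v2.sa false).slu (some U.tm.main) U.tm.initialState).slu (at' U t D.reverse).l
      (at' U t D.reverse).var) (at' U t D.reverse).stk (update z .all' (true :: z .all'))
    (oo U m i) (by simp [update, hq]) (by
      unfold oo rawOut
      rw [hD, ht])
  have hzp : (update z .all' (true :: z .all')) .p = P := by simp [update, hp]
  have hzv1 : (update z .all' (true :: z .all')) .v1 = z .v1 := by simp [update]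
  have hzv0 : (update z .all' (true :: z .all')) .v0 = z .v0 := by simp [update]
  rw [hzp, hzv1, hzv0] at s6
  -- 7
  obtain ⟨W1, hW1⟩ : ∃ W, (if P ++ [true] <+: oo U m i then true :: z .v1 else z .v1) = W :=
    ⟨_, rfl⟩
  obtain ⟨W0, hW0⟩ : ∃ W, (if P ++ [false] <+: oo U m i then true :: z .v0 else z .v0) = W :=
    ⟨_, rfl⟩
  rw [hW1, hW0] at s6 ⊢
  have s7 := hC v6 (update (at' U t D.reverse).stk U.tm.k₁
    (((at' U t D.reverse).stk U.tm.k₁).drop (P.length + 1)))
    (update (update (update z .all' (true :: z .all')) .v1 W1) .v0 W0)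
  -- 8
  obtain ⟨v8, hR8, s8⟩ := hINC U (v6.slu none U.tm.initialState) (E₀ U)
    (update (update (update z .all' (true :: z .all')) .v1 W1) .v0 W0) (by simp [update, hd'])
  have hzd8 : (update (update (update z .all' (true :: z .all')) .v1 W1) .v0 W0) .d = D := by
    simp [update, hdD]
  rw [hzd8] at s8
  have hall := s1.seq (s2.seq (s3.seq (s4.seq (s5.seq (s6.seq (s7.seq s8))))))
  refine ⟨v8, ⟨hR8.1, hR8.2.1, ?_⟩, ?_⟩
  · exact hR8.2.2.trans (hR6.2.2.trans hR2.2.2)
  · refine conv' hall rfl rfl ?_ ?_
    · have hds : ds (i + 1) = sc D := by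
        rw [← hD]
        exact iterate_succ_apply' sc i []
      rw [hds]
      funext k
      cases k <;> simp [update]
    · have h1 : hs U (update (at' U t D.reverse).stk U.tm.k₁
          (((at' U t D.reverse).stk U.tm.k₁).drop (P.length + 1))) ≤
          K * (D.length + H * t) := by
        rw [hK]
        refine hsLe _ _ (fun k => ?_)
        have h2 : ((at' U t D.reverse).stk k).length ≤ D.length + H * t := by
          refine (htIter hH t (ini U D.reverse) k).trans ?_
          have : ((ini U D.reverse).stk k).length ≤ D.length := by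
            unfold ini
            by_cases hk : k = U.tm.k₀
            · subst hk
              simp
            · simp [update_of_ne hk]
          omega
        by_cases hk : k = U.tm.k₁
        · subst hk
          rw [update_self, List.length_drop]
          omega
        · rw [update_of_ne hk]
          exact h2
      refine le_trans ?_ (arith t m D.length P.length R C K H)
      omega

end Pool.Agent.H43.KT
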