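import Pool.Agent.H49.KT.Targets

/-!
kt_modules, row CLK (MP_5e53ef_lc): the clock.
-/

namespace Pool.Agent.H43.KT

open Turing Function
open Pool.Agent.H49.KT

private theorem unLen (k : ℕ) : (un k).length = k := List.length_replicate

private theorem unRev (k : ℕ) : (un k).reverse = un k := List.reverse_replicate

private theorem sumClk (D : ℕ) : ∀ r : ℕ,
    ∑ i ∈ Finset.range r, ((if i < D then 4 else 7 * 2 ^ (i - D) + 5) + 1) + 7 ≤
      6 * r + 7 * 2 ^ (r - D) := by
  intro r
  induction r with
  | zero => simp
  | succ r ih =>
    rw [Finset.sum_range_succ]
    by_cases h : r < D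
    · rw [if_pos h]
      have : 2 ^ (r - D) ≤ 2 ^ (r + 1 - D) := Nat.pow_le_pow_right (by norm_num) (by omega)
      omega
    · rw [if_neg h]
      have : 2 ^ (r + 1 - D) = 2 * 2 ^ (r - D) := by
        rw [show r + 1 - D = (r - D) + 1 by omega, pow_succ]; ring
      omega

private theorem conv {U : BM} {c : CC U} {s : SS U} {v' : MM U} {u' : UU U}
    {z' z'' : Nm → List Bool} {T T' : ℕ} (h : Spec c s (mkS v' u' z') T) (hz : z' = z'')
    (hT : T ≤ T') : Spec c s (mkS v' u' z'') T' := by
  subst hz
  exact h.mono hT

theorem pf_CLK : T_DBL → T_CLK := by
  intro hDBL U v u z r hm hm' hclk hclk' hd' he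
  obtain ⟨D, hD⟩ : ∃ D, z .d = D := ⟨_, rfl⟩
  rw [hD]
  -- the chain up to the loop
  have s1 : Spec (pushc .clk true) (mkS v u z) (mkS v u (update z .clk [true])) 1 :=
    conv (sp_pushc v u z .clk true) (by rw [hclk]) le_rfl
  have s2 : Spec (mv2 .d .d' .e) (mkS v u (update z .clk [true]))
      (mkS (v.sa false) u (update (update (update (update z .clk [true]) .d []) .d' D.reverse)
        .e D.reverse)) (3 * D.length + 1) :=
    conv (sp_mv2 v u (update z .clk [true]) (x := .d) (y := .d') (y' := .e)
      (by decide) (by decide) (by decide))
      (by funext k; cases k <;> simp [update, hd', he, hD]) (by simp [update, hD])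
  have s3 : Spec (mv .d' .d) (mkS (v.sa false) u (update (update (update (update z .clk [true])
        .d []) .d' D.reverse) .e D.reverse))
      (mkS (v.sa false) u (update (update z .clk [true]) .e D.reverse)) (2 * D.length + 1) :=
    conv (sp_mv (v.sa false) u _ (x := .d') (y := .d) (by decide))
      (by funext k; cases k <;> simp [update, hd', he, hD]) (by simp [update])
  -- the loop
  obtain ⟨v4, u4, z4, ⟨hR4, hu4, hz4⟩, hva4, hS4⟩ := sp_lp_inv (v := v.sa false) (u := u)
    (z := update (update z .clk [true]) .e D.reverse) (x := .m)
    (c := .seq (pushc .m' true) (.seq (popn .e) (.ite (fun v => v.g) skip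
      (dbl .clk .clk')))) (un r) (by simp [update, hm])
    (fun i v' u' z' => Reg v v' ∧ u' = u ∧
      z' = update (update (update (update z .m []) .m' (un i)) .e (D.reverse.drop i))
        .clk (un (2 ^ (i - D.length))))
    (fun i => if i < D.length then 4 else 7 * 2 ^ (i - D.length) + 5) (by
      rintro i v' u' z' a ⟨hR, hu, hz⟩
      exact ⟨⟨hR.1, hR.2.1, hR.2.2⟩, hu, hz⟩) (by
      refine ⟨⟨rfl, rfl, rfl⟩, rfl, ?_⟩
      funext k
      cases k <;> simp [update, hm, hm', he, hclk]) (by
      rintro i hi v' u' z' ⟨hR, hu, hz⟩ _
      subst hu hz
      have t1 := sp_pushc v' u' (update (update (update (update z .m []) .m' (un i)) .e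
        (D.reverse.drop i)) .clk (un (2 ^ (i - D.length)))) .m' true
      by_cases h : i < D.length
      · have hi' : i < D.reverse.length := by simpa using h
        refine ⟨v'.sbg (D.reverse[i]) true, u', _, ⟨⟨hR.1, hR.2.1, hR.2.2⟩, rfl, rfl⟩, ?_⟩
        have hdrop : D.reverse.drop i = D.reverse[i] :: D.reverse.drop (i + 1) :=
          List.drop_eq_getElem_cons hi'
        have t2 : Spec (popn .e) (mkS v' u' (update (update (update (update (update z .m []) .m'
            (un i)) .e (D.reverse.drop i)) .clk (un (2 ^ (i - D.length)))) .m' (true ::
            (update (update (update (update z .m []) .m'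
            (un i)) .e (D.reverse.drop i)) .clk (un (2 ^ (i - D.length)))) .m')))
            (mkS (v'.sbg (D.reverse[i]) true) u' (update (update (update (update z .m []) .m'
            (un (i + 1))) .e (D.reverse.drop (i + 1))) .clk
            (un (2 ^ (i + 1 - D.length))))) 1 := by
          have t := sp_popn v' u' (update (update (update (update (update z .m []) .m'
            (un i)) .e (D.reverse.drop i)) .clk (un (2 ^ (i - D.length)))) .m' (true ::
            (update (update (update (update z .m []) .m'
            (un i)) .e (D.reverse.drop i)) .clk (un (2 ^ (i - D.length)))) .m')) .e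
          have ee : (update (update (update (update (update z .m []) .m'
            (un i)) .e (D.reverse.drop i)) .clk (un (2 ^ (i - D.length)))) .m' (true ::
            (update (update (update (update z .m []) .m'
            (un i)) .e (D.reverse.drop i)) .clk (un (2 ^ (i - D.length)))) .m')) .e =
              D.reverse[i] :: D.reverse.drop (i + 1) := by
            rw [← hdrop]
            simp [update]
          rw [ee] at t
          refine conv t ?_ le_rfl
          have h1 : i - D.length = 0 := by omega
          have h2 : i + 1 - D.length = 0 := by omega
          rw [h1, h2]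
          funext k
          cases k <;> simp [update, un, List.replicate_succ]
        have t3 := sp_skip (v'.sbg (D.reverse[i]) true) u' (update (update (update (update z .m [])
            .m' (un (i + 1))) .e (D.reverse.drop (i + 1))) .clk
            (un (2 ^ (i + 1 - D.length))))
        have t4 := Spec.ite_t (c₂ := dbl .clk .clk') (p := fun v : MM U => v.g) rfl t3
        refine (t1.seq (t2.seq t4)).mono ?_
        rw [if_pos h]
      · have hnil : D.reverse.drop i = [] := by
          apply List.drop_eq_nil_of_le; simpa using h
        have hnil' : D.reverse.drop (i + 1) = [] := by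
          apply List.drop_eq_nil_of_le; simp; omega
        refine ⟨(v'.sbg false false).sa false, u', _, ⟨⟨hR.1, hR.2.1, hR.2.2⟩, rfl, rfl⟩, ?_⟩
        have t2 : Spec (popn .e) (mkS v' u' (update (update (update (update (update z .m []) .m'
            (un i)) .e (D.reverse.drop i)) .clk (un (2 ^ (i - D.length)))) .m' (true ::
            (update (update (update (update z .m []) .m'
            (un i)) .e (D.reverse.drop i)) .clk (un (2 ^ (i - D.length)))) .m')))
            (mkS (v'.sbg false false) u' (update (update (update (update z .m []) .m'
            (un (i + 1))) .e (D.reverse.drop (i + 1))) .clk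
            (un (2 ^ (i - D.length))))) 1 := by
          have t := sp_popn v' u' (update (update (update (update (update z .m []) .m'
            (un i)) .e (D.reverse.drop i)) .clk (un (2 ^ (i - D.length)))) .m' (true ::
            (update (update (update (update z .m []) .m'
            (un i)) .e (D.reverse.drop i)) .clk (un (2 ^ (i - D.length)))) .m')) .e
          have ee : (update (update (update (update (update z .m []) .m'
            (un i)) .e (D.reverse.drop i)) .clk (un (2 ^ (i - D.length)))) .m' (true ::
            (update (update (update (update z .m []) .m'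
            (un i)) .e (D.reverse.drop i)) .clk (un (2 ^ (i - D.length)))) .m')) .e = [] := by
            rw [← hnil]
            simp [update]
          rw [ee] at t
          refine conv t ?_ le_rfl
          rw [hnil']
          funext k
          cases k <;> simp [update, un, List.replicate_succ]
        have t3 : Spec (dbl .clk .clk') (mkS (v'.sbg false false) u' (update (update (update
            (update z .m []) .m' (un (i + 1))) .e (D.reverse.drop (i + 1))) .clk
            (un (2 ^ (i - D.length))))) (mkS ((v'.sbg false false).sa false) u' (update (update
            (update (update z .m []) .m' (un (i + 1))) .e (D.reverse.drop (i + 1))) .clk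
            (un (2 ^ (i + 1 - D.length))))) (7 * 2 ^ (i - D.length) + 2) := by
          have t := hDBL U (v'.sbg false false) u' (update (update (update
            (update z .m []) .m' (un (i + 1))) .e (D.reverse.drop (i + 1))) .clk
            (un (2 ^ (i - D.length)))) .clk .clk' (2 ^ (i - D.length)) (by decide)
            (by simp [update]) (by simp [update, hclk'])
          refine conv t ?_ le_rfl
          rw [update_idem]
          have : i + 1 - D.length = (i - D.length) + 1 := by omega
          rw [this, pow_succ, mul_comm 2]
        have t4 := Spec.ite_f (c₁ := skip) (p := fun v : MM U => v.g) rfl t3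
        refine (t1.seq (t2.seq t4)).mono ?_
        rw [if_neg h]
        omega)
  rw [unLen] at hz4 hS4
  subst hu4 hz4
  have s5 : Spec (mv .m' .m) (mkS v4 u4 (update (update (update (update z .m []) .m' (un r))
      .e (D.reverse.drop r)) .clk (un (2 ^ (r - D.length)))))
      (mkS (v4.sa false) u4 (update (update z .e (D.reverse.drop r)) .clk
        (un (2 ^ (r - D.length))))) (2 * r + 1) :=
    conv (sp_mv v4 u4 _ (x := .m') (y := .m) (by decide))
      (by funext k; cases k <;> simp [update, hm, hm']) (by simp [update])
  have s6 : Spec (clr .e) (mkS (v4.sa false) u4 (update (update z .e (D.reverse.drop r)) .clk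
        (un (2 ^ (r - D.length)))))
      (mkS ((v4.sa false).sa false) u4 (update z .clk (un (2 ^ (r - D.length)))))
      (2 * D.length + 1) :=
    conv (sp_clr (v4.sa false) u4 _ (x := .e))
      (by funext k; cases k <;> simp [update, he]) (by simp [update])
  refine ⟨(v4.sa false).sa false, ⟨hR4.1, hR4.2.1, hR4.2.2⟩, ?_⟩
  have hall := s1.seq (s2.seq (s3.seq (hS4.seq (s5.seq s6))))
  refine hall.mono ?_
  have := sumClk D.length r
  omega

end Pool.Agent.H43.KT
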