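import Pool.Agent.H49.KT.Targets

/-!
kt_modules, row OT (MP_5e53ef_lc): the delay after an ordinary run.
-/

namespace Pool.Agent.H43.KT

open Turing Function
open Pool.Agent.H49.KT

private theorem unLn (k : ℕ) : (un k).length = k := List.length_replicate

private theorem unRv (k : ℕ) : (un k).reverse = un k := List.reverse_replicate

private theorem unApp (a b : ℕ) : un a ++ un b = un (a + b) := (List.replicate_add a b true).symm

private theorem conv3 {U : BM} {c : CC U} {s : SS U} {v' v'' : MM U} {u' : UU U}
    {z' z'' : Nm → List Bool} {T T' : ℕ} (h : Spec c s (mkS v' u' z') T) (hv : v' = v'')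
    (hz : z' = z'') (hT : T ≤ T') : Spec c s (mkS v'' u' z'') T' := by
  subst hv hz
  exact h.mono hT

/-- a stack grows by at most one symbol per step -/
theorem growth {K σ : Type} {Γ : K → Type} [DecidableEq K] (k : K) : ∀ (c : Cmd K σ Γ)
    (s : St K σ Γ), ((den c s).S k).length ≤ (s.S k).length + cost c s := by
  intro c
  induction c with
  | push k' f =>
    intro s
    by_cases h : k = k'
    · subst h
      simp [den, cost]
    · simp [den, cost, update_of_ne h]
  | pop k' f =>
    intro s
    by_cases h : k = k'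
    · subst h
      simp [den, cost]
      omega
    · simp [den, cost, update_of_ne h]
  | peek k' f => intro s; simp [den, cost]
  | load f => intro s; simp [den, cost]
  | seq c₁ c₂ ih₁ ih₂ =>
    intro s
    have h1 := ih₁ s
    have h2 := ih₂ (den c₁ s)
    simp only [den, cost]
    omega
  | ite p c₁ c₂ ih₁ ih₂ =>
    intro s
    have h1 := ih₁ s
    have h2 := ih₂ s
    simp only [den, cost]
    cases p s.v <;> simp <;> omega
  | wh p c ih => intro s; simp [den, cost]
  | loop k' f g c ih =>
    intro s
    have key : ∀ (l : List (Γ k')) (t : St K σ Γ),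
        ((itS (den c) f l t).S k).length ≤ (t.S k).length + itC (den c) (cost c) f l t := by
      intro l
      induction l with
      | nil => intro t; simp [itS]
      | cons x l ihl =>
        intro t
        have h1 := ih ⟨f t.v x, t.S⟩
        have h2 := ihl (den c ⟨f t.v x, t.S⟩)
        simp only [itS, itC]
        simp only at h1
        omega
    have h := key (s.S k') ⟨s.v, update s.S k' []⟩
    simp only [den, cost]
    refine h.trans ?_
    have : (update s.S k' [] k).length ≤ (s.S k).length := by
      by_cases hk : k = k'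
      · subst hk
        simp
      · simp [update_of_ne hk]
    simp only
    omega

private theorem sp_inN {U : BM} (v : MM U) (u : UU U) (z : Nm → List Bool) (n a : ℕ)
    (hn : z .n = un n) (hn' : z .n' = []) (hw' : z .w' = un a) :
    Spec (.seq (lp .n (.seq (pushc .n' true) (.seq (pushc .w' true) (pushc .w' true))))
      (mv .n' .n)) (mkS v u z) (mkS (v.sa false) u (update z .w' (un (a + 2 * n))))
      (6 * n + 2) := by
  have e := sp_lp (v := v) (u := u) (z := z) (x := .n)
    (c := .seq (pushc .n' true) (.seq (pushc .w' true) (pushc .w' true))) (un n) hn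
    (fun _ => v) (fun _ => u)
    (fun i => update (update (update z .n []) .n' (un i)) .w' (un (a + 2 * i))) (fun _ => 3)
    ⟨v.a, rfl⟩ rfl (by
      funext k
      cases k <;> simp [update, hn', hw']) (fun i hi => by
      refine ⟨(un n)[i], ?_⟩
      have e1 := sp_pushc (v.sa (un n)[i]) u
        (update (update (update z .n []) .n' (un i)) .w' (un (a + 2 * i))) .n' true
      have e2 := e1.seq ((sp_pushc _ _ _ .w' true).seq (sp_pushc _ _ _ .w' true))
      refine conv3 e2 rfl ?_ le_rfl
      funext k
      cases k <;> simp [update, un, List.replicate_succ, Nat.mul_add, ← add_assoc])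
  rw [unLn] at e
  have e3 := e.seq (sp_mv _ _ _ (x := .n') (y := .n) (by decide))
  refine conv3 e3 rfl ?_ ?_
  · funext k
    cases k <;> simp [update, hn, hn']
  · simp [update]
    omega

private theorem sp_mulN {U : BM} (v : MM U) (u : UU U) (z : Nm → List Bool) (n k : ℕ)
    (hn : z .n = un n) (hn' : z .n' = []) (hw : z .w = un k) (hw' : z .w' = []) :
    Spec mulN (mkS v u z) (mkS (v.sa false) u (update z .w (un (2 * n * k))))
      (k * (10 * n + 3) + 2) := by
  have e := sp_lp (v := v) (u := u) (z := z) (x := .w)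
    (c := .seq (lp .n (.seq (pushc .n' true) (.seq (pushc .w' true) (pushc .w' true))))
      (mv .n' .n)) (un k) hw
    (fun _ => v) (fun _ => u)
    (fun i => update (update z .w []) .w' (un (2 * n * i))) (fun _ => 6 * n + 2)
    ⟨v.a, rfl⟩ rfl (by
      funext k
      cases k <;> simp [update, hw']) (fun i hi => by
      refine ⟨false, ?_⟩
      have e1 := sp_inN (v.sa (un k)[i]) u (update (update z .w []) .w' (un (2 * n * i))) n
        (2 * n * i) (by simp [update, hn]) (by simp [update, hn']) (by simp [update])
      refine conv3 e1 rfl ?_ le_rfl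
      rw [update_idem]
      rw [show 2 * n * (i + 1) = 2 * n * i + 2 * n by ring])
  rw [unLn] at e
  have e3 := e.seq (sp_mv _ _ _ (x := .w') (y := .w) (by decide))
  refine conv3 e3 rfl ?_ ?_
  · funext k'
    cases k' <;> simp [update, hw']
  · simp [update]
    ring_nf
    omega

private theorem sp_inT {U : BM} (v : MM U) (u : UU U) (z : Nm → List Bool) (n a : ℕ)
    (hn : z .t = un n) (hn' : z .t' = []) (hw' : z .w' = un a) :
    Spec (.seq (lp .t (.seq (pushc .t' true) (pushc .w' true)))
      (mv .t' .t)) (mkS v u z) (mkS (v.sa false) u (update z .w' (un (a + n))))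
      (5 * n + 2) := by
  have e := sp_lp (v := v) (u := u) (z := z) (x := .t)
    (c := .seq (pushc .t' true) (pushc .w' true)) (un n) hn
    (fun _ => v) (fun _ => u)
    (fun i => update (update (update z .t []) .t' (un i)) .w' (un (a + i))) (fun _ => 2)
    ⟨v.a, rfl⟩ rfl (by
      funext k
      cases k <;> simp [update, hn', hw']) (fun i hi => by
      refine ⟨(un n)[i], ?_⟩
      have e1 := sp_pushc (v.sa (un n)[i]) u
        (update (update (update z .t []) .t' (un i)) .w' (un (a + i))) .t' true
      have e2 := e1.seq (sp_pushc _ _ _ .w' true)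
      refine conv3 e2 rfl ?_ le_rfl
      funext k
      cases k <;> simp [update, un, List.replicate_succ, ← add_assoc])
  rw [unLn] at e
  have e3 := e.seq (sp_mv _ _ _ (x := .t') (y := .t) (by decide))
  refine conv3 e3 rfl ?_ ?_
  · funext k
    cases k <;> simp [update, hn, hn']
  · simp [update]
    omega

/-- the first loop of `mulT` -/
private def mulT' {U : BM} : CC U :=
  lp .w (.seq (lp .t (.seq (pushc .t' true) (pushc .w' true))) (mv .t' .t))

private theorem sp_mulT' {U : BM} (v : MM U) (u : UU U) (z : Nm → List Bool) (n k : ℕ)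
    (hn : z .t = un n) (hn' : z .t' = []) (hw : z .w = un k) (hw' : z .w' = []) :
    Spec mulT' (mkS v u z) (mkS (v.sa false) u (update (update z .w []) .w' (un (n * k))))
      (k * (5 * n + 3) + 1) := by
  have e := sp_lp (v := v) (u := u) (z := z) (x := .w)
    (c := .seq (lp .t (.seq (pushc .t' true) (pushc .w' true))) (mv .t' .t)) (un k) hw
    (fun _ => v) (fun _ => u)
    (fun i => update (update z .w []) .w' (un (n * i))) (fun _ => 5 * n + 2)
    ⟨v.a, rfl⟩ rfl (by
      funext k
      cases k <;> simp [update, hw']) (fun i hi => by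
      refine ⟨false, ?_⟩
      have e1 := sp_inT (v.sa (un k)[i]) u (update (update z .w []) .w' (un (n * i))) n
        (n * i) (by simp [update, hn]) (by simp [update, hn']) (by simp [update])
      refine conv3 e1 rfl ?_ le_rfl
      rw [update_idem, Nat.mul_succ])
  rw [unLn] at e
  refine conv3 e rfl rfl ?_
  simp
  ring_nf
  omega

private theorem arithOT (n T : ℕ) :
    1 + (1 * (10 * n + 3) + 2 + (2 * n * 1 * (10 * n + 3) + 2 +
      (2 * n * (2 * n * 1) * (10 * n + 3) + 2 + (2 * n * (2 * n * (2 * n * 1)) * (10 * n + 3) + 2 +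
      (2 * n * (2 * n * (2 * n * (2 * n * 1))) * (10 * n + 3) + 2 +
      ((2 * n) ^ 5 * (5 * T + 3) + 1 + (2 * (T * (2 * n) ^ 5) + 1) +
      (2 * n + 1 + (2 * T + 1 + (2 * n + 1)))))))))
      ≤ 1000 * ((n + 1) ^ 5 * (T + 1)) := by
  have hn : 0 ≤ n := Nat.zero_le _
  have hT : 0 ≤ T := Nat.zero_le _
  ring_nf
  have a1 : 0 ≤ n * T := Nat.zero_le _
  have a2 : 0 ≤ n ^ 2 * T := Nat.zero_le _
  have a3 : 0 ≤ n ^ 3 * T := Nat.zero_le _
  have a4 : 0 ≤ n ^ 4 * T := Nat.zero_le _
  have a5 : 0 ≤ n ^ 5 * T := Nat.zero_le _
  nlinarith [pow_nonneg hn 2, pow_nonneg hn 3, pow_nonneg hn 4, pow_nonneg hn 5]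

theorem pf_OT : T_OT := by
  intro U v u x T
  obtain ⟨n, hn⟩ : ∃ n, x.length = n := ⟨_, rfl⟩
  rw [hn]
  obtain ⟨Z, hZ⟩ : ∃ Z, update (update (update z₀ .q x.reverse) .n (un n)) .t (un T) = Z :=
    ⟨_, rfl⟩
  have hZn : Z .n = un n := by rw [← hZ]; simp [update]
  have hZt : Z .t = un T := by rw [← hZ]; simp [update]
  have hZn' : Z .n' = [] := by rw [← hZ]; simp [update, z₀]
  have hZt' : Z .t' = [] := by rw [← hZ]; simp [update, z₀]
  have hZw : Z .w = [] := by rw [← hZ]; simp [update, z₀]
  have hZw' : Z .w' = [] := by rw [← hZ]; simp [update, z₀]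
  have hZq : Z .q = x.reverse := by rw [← hZ]; simp [update]
  have hZo : Z .out = [] := by rw [← hZ]; simp [update, z₀]
  rw [hZ]
  have s1 : Spec (pushc .w true) (mkS v u Z) (mkS v u (update Z .w (un 1))) 1 :=
    conv3 (sp_pushc v u Z .w true) rfl (by rw [hZw]; rfl) le_rfl
  have step : ∀ (v : MM U) (k : ℕ), Spec mulN (mkS v u (update Z .w (un k)))
      (mkS (v.sa false) u (update Z .w (un (2 * n * k)))) (k * (10 * n + 3) + 2) := by
    intro v k
    refine conv3 (sp_mulN v u (update Z .w (un k)) n k (by simp [update, hZn])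
      (by simp [update, hZn']) (by simp [update]) (by simp [update, hZw'])) rfl ?_ le_rfl
    rw [update_idem]
  have s2 := step v 1
  have s3 := step (v.sa false) (2 * n * 1)
  have s4 := step ((v.sa false).sa false) (2 * n * (2 * n * 1))
  have s5 := step (((v.sa false).sa false).sa false) (2 * n * (2 * n * (2 * n * 1)))
  have s6 := step ((((v.sa false).sa false).sa false).sa false)
    (2 * n * (2 * n * (2 * n * (2 * n * 1))))
  have e5 : 2 * n * (2 * n * (2 * n * (2 * n * (2 * n * 1)))) = (2 * n) ^ 5 := by ring
  rw [e5] at s6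
  obtain ⟨v6, hv6⟩ : ∃ v6, ((((v.sa false).sa false).sa false).sa false).sa false = v6 :=
    ⟨_, rfl⟩
  rw [hv6] at s6
  have s7 := sp_mulT' v6 u (update Z .w (un ((2 * n) ^ 5))) T ((2 * n) ^ 5)
    (by simp [update, hZt]) (by simp [update, hZt']) (by simp [update]) (by simp [update, hZw'])
  rw [update_idem] at s7
  have s8 : Spec (clr .w') (mkS (v6.sa false) u (update (update Z .w []) .w'
      (un (T * (2 * n) ^ 5)))) (mkS ((v6.sa false).sa false) u Z)
      (2 * (T * (2 * n) ^ 5) + 1) := by
    refine conv3 (sp_clr _ _ _) rfl ?_ (by simp [update])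
    funext k
    cases k <;> simp [update, hZw, hZw']
  have s9 : Spec (clr .n) (mkS ((v6.sa false).sa false) u Z)
      (mkS (((v6.sa false).sa false).sa false) u (update Z .n [])) (2 * n + 1) :=
    conv3 (sp_clr _ _ _) rfl rfl (by simp [hZn])
  have s10 : Spec (clr .t) (mkS (((v6.sa false).sa false).sa false) u (update Z .n []))
      (mkS ((((v6.sa false).sa false).sa false).sa false) u (update (update Z .n []) .t []))
      (2 * T + 1) :=
    conv3 (sp_clr _ _ _) rfl rfl (by simp [update, hZt])
  have s11 : Spec (mv .q .out) (mkS ((((v6.sa false).sa false).sa false).sa false) u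
      (update (update Z .n []) .t []))
      (mkS (((((v6.sa false).sa false).sa false).sa false).sa false) u (update z₀ .out x))
      (2 * n + 1) := by
    refine conv3 (sp_mv _ _ _ (by decide)) rfl ?_ (by simp [update, hZq, hn])
    rw [← hZ]
    funext k
    cases k <;> simp [update, z₀]
  have hall : Spec ordTail (mkS v u Z) _ _ :=
    s1.seq (s2.seq (s3.seq (s4.seq (s5.seq (s6.seq ((s7.seq s8).seq (s9.seq (s10.seq s11))))))))
  have hwf : WF (ordTail (U := U)) := by
    simp [ordTail, WF, pushc, mulN, mulT, clr, mv, _root_.Pool.Agent.H49.KT.lp, Free, skip, pusha]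
  refine ⟨(((((v6.sa false).sa false).sa false).sa false).sa false),
    cost ordTail (mkS v u Z), ?_, ?_, ?_⟩
  · have h := run_den ordTail hwf (mkS v u Z)
    rw [hall.1] at h
    exact h
  · -- lower bound
    have g := growth (.inr .w' : KK U) mulT' (mkS v6 u (update Z .w (un ((2 * n) ^ 5))))
    rw [s7.1] at g
    simp only [mkS_inr, update_self, unLn] at g
    have g0 : (update Z .w (un ((2 * n) ^ 5)) .w').length = 0 := by simp [update, hZw']
    rw [g0, zero_add] at g
    have h1 : cost mulT' (mkS v6 u (update Z .w (un ((2 * n) ^ 5)))) ≤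
        cost ordTail (mkS v u Z) := by
      have c1 : cost (ordTail (U := U)) (mkS v u Z) =
        cost (pushc .w true) (mkS v u Z) + (cost mulN (mkS v u (update Z .w (un 1))) + (
        cost mulN (mkS (v.sa false) u (update Z .w (un (2 * n * 1)))) + (
        cost mulN (mkS ((v.sa false).sa false) u (update Z .w (un (2 * n * (2 * n * 1))))) + (
        cost mulN (mkS (((v.sa false).sa false).sa false) u
          (update Z .w (un (2 * n * (2 * n * (2 * n * 1)))))) + (
        cost mulN (mkS ((((v.sa false).sa false).sa false).sa false) u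
          (update Z .w (un (2 * n * (2 * n * (2 * n * (2 * n * 1))))))) + (
        cost mulT (mkS v6 u (update Z .w (un ((2 * n) ^ 5)))) +
        cost (.seq (clr .n) (.seq (clr .t) (mv .q .out))) (den mulT
          (mkS v6 u (update Z .w (un ((2 * n) ^ 5)))))))))))  := by
        unfold ordTail
        simp only [cost]
        rw [s1.1, s2.1, s3.1, s4.1, s5.1, s6.1]
      have c2 : cost (mulT (U := U)) (mkS v6 u (update Z .w (un ((2 * n) ^ 5)))) =
        cost mulT' (mkS v6 u (update Z .w (un ((2 * n) ^ 5)))) +
        cost (clr .w') (den mulT' (mkS v6 u (update Z .w (un ((2 * n) ^ 5))))) := rfl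
      omega
    rw [mul_comm] at g
    exact g.trans h1
  · refine hall.2.trans ?_
    have := arithOT n T
    exact this

end Pool.Agent.H43.KT
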